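import Pool.Agent.helper5.DH.Spec
import Pool.Agent.helper32.DH.CST

/-!
# CON (backup of dh:CON)
-/

set_option autoImplicit false

open Complex Metric Set Filter Topology MeasureTheory
open Pool.Agent.helper98.ILF Pool.Agent.helper16.Multibrot
open HY (UD T S hd UN RM VV SG Orb fz)

noncomputable section

namespace DH

theorem CON' (hKO0 : V3.KO0_stmt) (hKO1 : V3.KO1_stmt) (hKO3 : V3.KO3_stmt) (hNUL : EX.NUL_stmt) (hITR : EX.ITR_stmt)
    (hINR : INR_stmt) (hSCL : NZ.SCL_stmt) : CON_stmt := by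
  intro n c Φ b μ x c₂ K₂ hT hint hm hμ hx hinv hden hc₂ hc₂' hK₂ hB K ε hK hε
  have hn := hT.hn
  obtain ⟨κ, hκ, hκ1, hscl⟩ := hSCL n hn
  obtain ⟨C1, hC1, hk1⟩ := hKO1
  have hC1p : 0 < C1 := by linarith
  obtain ⟨s0, hs0, hs0h, δ0, hδ0, hone⟩ := HY.CST_one hKO0 ⟨C1, hC1, hk1⟩ hKO3 hNUL hITR (n := n) (c := c) (μ := μ) (by omega) hinv hm hμ hx hden K₂
    (ε * κ ^ 2 / K ^ 2) (by positivity)
  obtain ⟨k₀, hk₀⟩ := hINR n c hn hT.hc hint (δ0 / C1) (by positivity)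
  obtain ⟨ρ₀, hρ₀, hsc⟩ := hscl c hT.hc hint Φ hT.rm k₀
  refine ⟨ρ₀ * (s0 * c₂) / K, by positivity, ?_⟩
  intro s hs hsδ
  have hρ : 0 < K * s / (s0 * c₂) := by positivity
  obtain ⟨k, hk, h1, h2⟩ := hsc (K * s / (s0 * c₂)) hρ (by
    rw [div_lt_iff₀ (by positivity)]
    rw [lt_div_iff₀ hK] at hsδ
    linarith)
  obtain ⟨t, X, hX, hXi, hXF, hXV, hXx⟩ := hB k
  have hXδ : ‖deriv X 0‖ < δ0 := by
    by_contra hcon
    push Not at hcon
    refine hk₀ (k + t) (by omega) (X 0) ?_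
    have h3 := hk1 X 0 1 one_pos hX hXi
    refine (ball_subset_ball ?_).trans (h3.trans ?_)
    · rw [one_mul]; gcongr
    · rintro _ ⟨y, hy, rfl⟩
      exact hXV y hy
  have hrm := hT.rm k
  have hlin : ∀ y ∈ UD, (c₂ : ℂ) * y ∈ UD := by
    intro y hy
    rw [UD, mem_ball_zero_iff] at hy ⊢
    rw [norm_mul, Complex.norm_real, Real.norm_of_nonneg hc₂.le]
    nlinarith [norm_nonneg y]
  have hc₂C : (c₂ : ℂ) ≠ 0 := by exact_mod_cast hc₂.ne'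
  have hFd : DifferentiableOn ℂ (fun y => Φ k ((c₂ : ℂ) * y)) UD := by
    refine hrm.dif.comp (differentiable_id.const_mul (c₂ : ℂ)).differentiableOn ?_
    intro y hy
    exact hlin y hy
  have hFi : InjOn (fun y => Φ k ((c₂ : ℂ) * y)) UD := by
    intro a ha b' hb' hab
    exact mul_left_cancel₀ hc₂C (hrm.inj (hlin a ha) (hlin b' hb') hab)
  have h00 : (0 : ℂ) ∈ UD := by simp [UD]
  have hFder : deriv (fun y => Φ k ((c₂ : ℂ) * y)) 0 = c₂ * deriv (Φ k) 0 := by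
    have e1 : HasDerivAt (Φ k) (deriv (Φ k) 0) ((c₂ : ℂ) * 0) := by
      rw [mul_zero]
      exact (hrm.dif.differentiableAt (isOpen_ball.mem_nhds h00)).hasDerivAt
    have e2 : HasDerivAt (fun y : ℂ => (c₂ : ℂ) * y) (c₂ : ℂ) 0 := by
      simpa using (hasDerivAt_id (0 : ℂ)).const_mul (c₂ : ℂ)
    have := (e1.comp 0 e2).deriv
    rw [mul_comm] at this
    exact this
  obtain ⟨e, he, hI⟩ := hone (fun y => Φ k ((c₂ : ℂ) * y)) X t hFd hFi hX hXi hXF hXx hXδ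
  refine ⟨e, he, ?_⟩
  have hF0 : Φ k ((c₂ : ℂ) * 0) = 0 := by
    rw [mul_zero]; exact hrm.val
  rw [hF0, hFder, norm_mul, Complex.norm_real, Real.norm_of_nonneg hc₂.le] at hI
  have h4 : K * s ≤ s0 * (c₂ * ‖deriv (Φ k) 0‖) := by
    rw [div_le_iff₀ (by positivity)] at h1
    linarith
  have h5 : s0 * (c₂ * ‖deriv (Φ k) 0‖) ≤ K * s / κ := by
    have : ‖deriv (Φ k) 0‖ ≤ K * s / (s0 * c₂) / κ := h2
    calc s0 * (c₂ * ‖deriv (Φ k) 0‖) ≤ s0 * (c₂ * (K * s / (s0 * c₂) / κ)) := by gcongr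
      _ = _ := by field_simp
  have hint2 : IntegrableOn (fun z => ‖μ z - e‖) (ball (0 : ℂ) (s0 * (c₂ * ‖deriv (Φ k) 0‖))) := by
    refine Measure.integrableOn_of_bounded (M := 2) measure_ball_lt_top.ne (hm.sub_const e).norm.aestronglyMeasurable ?_
    refine Eventually.of_forall fun z => ?_
    rw [Real.norm_eq_abs, abs_of_nonneg (norm_nonneg _)]
    refine (norm_sub_le _ _).trans ?_
    have := hμ z
    linarith
  have h6 : ∫ z in ball (0 : ℂ) (K * s), ‖μ z - e‖ ≤ ∫ z in ball (0 : ℂ) (s0 * (c₂ * ‖deriv (Φ k) 0‖)), ‖μ z - e‖ :=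
    setIntegral_mono_set hint2 (Eventually.of_forall fun z => norm_nonneg _) (ball_subset_ball h4).eventuallyLE
  refine h6.trans (hI.trans ?_)
  have h7 : (s0 * (c₂ * ‖deriv (Φ k) 0‖)) ^ 2 ≤ (K * s / κ) ^ 2 := by gcongr
  calc ε * κ ^ 2 / K ^ 2 * (s0 * (c₂ * ‖deriv (Φ k) 0‖)) ^ 2 ≤ ε * κ ^ 2 / K ^ 2 * (K * s / κ) ^ 2 := by gcongr
    _ = ε * s ^ 2 := by field_simp

end DH
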