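import Pool.Agent.helper5.DH.Spec
import Pool.Agent.helper32.DH.CST
import Pool.Agent.helper73.EX.NULm
import Pool.Agent.helper62.EX.ITR

/-!
# NLI (backup)
-/

set_option autoImplicit false

open Complex Metric Set Filter Topology MeasureTheory
open Pool.Agent.helper98.ILF Pool.Agent.helper16.Multibrot
open HY (UD T S hd UN RM VV SG Orb fz)

noncomputable section

namespace DH

theorem NLI' (hKO0 : V3.KO0_stmt) : NLI_stmt := by
  intro n c μ hn hμ hinv m X hX hXi
  have hne := hKO0 X UD isOpen_ball hX hXi
  have h := HY.LFT_inv EX.NUL (EX.ITR EX.NUL) (n := n) (c := c) (μ := μ) (by omega) hinv (Ω := UD) isOpen_ball (g := X)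
    (F := fun x => (fz n c)^[m] (X x)) (t := m) hX hne (fun y _ => rfl)
  filter_upwards [h] with y hy hyU
  exact (hy hyU).symm

end DH
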